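import Pool.Agent.Helper67.Conv.Final

set_option autoImplicit false
set_option linter.unusedSectionVars false
open Filter Topology
open Pool.Agent.Helper67.Conv

namespace Pool.Agent.Y14.CV

/-- The classical energy of electrons at the sites of `S`, protons at all the points of `P`. -/
noncomputable def W {ι : Type} [Fintype ι] [DecidableEq ι] (P : ι → Space) (S : Finset ι) : ℝ :=
  (∑ x ∈ S, ∑ y ∈ S.erase x, 1 / ‖P x - P y‖) / 2
    - ∑ x ∈ S, ∑ k ∈ Finset.univ.erase x, 1 / ‖P x - P k‖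

section
variable {K M : ℕ}

lemma Wc_eq (P : Fin K → Space) (a : Fin M → Fin K) (ha : Function.Injective a) :
    Wc P a = W P (Finset.univ.image a) := by
  unfold Wc W
  have hinj : ∀ x ∈ (Finset.univ : Finset (Fin M)), ∀ y ∈ (Finset.univ : Finset (Fin M)),
      a x = a y → x = y := fun x _ y _ h => ha h
  congr 1
  · rw [Finset.sum_image hinj]
    have h1 : ∀ i : Fin M, ∑ y ∈ (Finset.univ.image a).erase (a i), 1 / ‖P (a i) - P y‖ =
        ∑ j : Fin M, if i ≠ j then 1 / ‖P (a i) - P (a j)‖ else 0 := by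
      intro i
      rw [← Finset.image_erase ha, Finset.sum_image (fun x _ y _ h => ha h),
        ← Finset.sum_filter]
      refine Finset.sum_congr ?_ fun _ _ => rfl
      ext j
      simp [eq_comm]
    simp_rw [h1]
    have h2 : ∑ i : Fin M, ∑ j : Fin M, (if i ≠ j then 1 / ‖P (a i) - P (a j)‖ else 0) =
        (∑ i : Fin M, ∑ j : Fin M, if i < j then 1 / ‖P (a i) - P (a j)‖ else 0) +
        ∑ i : Fin M, ∑ j : Fin M, if j < i then 1 / ‖P (a i) - P (a j)‖ else 0 := by
      rw [← Finset.sum_add_distrib]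
      refine Finset.sum_congr rfl fun i _ => ?_
      rw [← Finset.sum_add_distrib]
      refine Finset.sum_congr rfl fun j _ => ?_
      rcases lt_trichotomy i j with h | h | h
      · simp [h, h.ne, not_lt.mpr h.le]
      · simp [h]
      · simp [h, h.ne', not_lt.mpr h.le]
    have h3 : ∑ i : Fin M, ∑ j : Fin M, (if j < i then 1 / ‖P (a i) - P (a j)‖ else 0) =
        ∑ i : Fin M, ∑ j : Fin M, if i < j then 1 / ‖P (a i) - P (a j)‖ else 0 := by
      rw [Finset.sum_comm]
      refine Finset.sum_congr rfl fun i _ => Finset.sum_congr rfl fun j _ => ?_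
      rw [norm_sub_rev]
    rw [h2, h3]
    ring
  · rw [Finset.sum_image hinj]

lemma exists_enum (S : Finset (Fin K)) (hS : S.card = M) :
    ∃ a : Fin M → Fin K, Function.Injective a ∧ Finset.univ.image a = S := by
  subst hS
  refine ⟨fun i => (S.equivFin.symm i : Fin K), ?_, ?_⟩
  · intro i j h
    exact S.equivFin.symm.injective (Subtype.ext h)
  · ext x
    simp only [Finset.mem_image, Finset.mem_univ, true_and]
    constructor
    · rintro ⟨i, rfl⟩
      exact (S.equivFin.symm i).2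
    · intro hx
      exact ⟨S.equivFin ⟨x, hx⟩, by simp⟩

/-- Auxiliary: the errors are small. -/
lemma small_err (A : ℝ) {η : ℝ} (hη : 0 < η) :
    ∀ᶠ t : ℝ in atTop, A / t ≤ η := by
  have h : Tendsto (fun t : ℝ => A / t) atTop (𝓝 0) := tendsto_const_nhds.div_atTop tendsto_id
  exact (h.eventually (gt_mem_nhds hη)).mono fun t ht => le_of_lt ht

lemma four_root : Tendsto (fun lam : ℝ => lam ^ (1 / 4 : ℝ)) atTop atTop :=
  tendsto_rpow_atTop (by norm_num)

lemma four_pow {lam : ℝ} (h : 0 ≤ lam) : (lam ^ (1 / 4 : ℝ)) ^ 4 = lam := by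
  rw [← Real.rpow_natCast, ← Real.rpow_mul h]
  norm_num

/-- Upper bound in the dilute limit. -/
lemma upE (P : Fin K → Space) (hP : ∀ j k, j ≠ k → 1 ≤ ‖P j - P k‖) (S : Finset (Fin K))
    (hS : S.card = M) {η : ℝ} (hη : 0 < η) :
    ∀ᶠ lam : ℝ in atTop,
      ((energies (fun _ => 1) (fun k => lam • P k) M).Nonempty ∧
        BddBelow (energies (fun _ => 1) (fun k => lam • P k) M)) ∧
      groundEnergy (fun _ => 1) (fun k => lam • P k) M ≤ -(M / 2) + (W P S + η) / lam := by
  obtain ⟨C, hC0, hC⟩ := exists_bound_deriv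
  obtain ⟨a, ha, haS⟩ := exists_enum S hS
  have hw : ∀ τ : Equiv.Perm (Fin M), Wc P (a ∘ τ) ≤ W P S := by
    intro τ
    rw [Wc_eq P (a ∘ τ) (ha.comp τ.injective)]
    have : Finset.univ.image (a ∘ τ) = S := by
      rw [← haS]
      ext x
      simp only [Finset.mem_image, Finset.mem_univ, true_and, Function.comp_apply]
      constructor
      · rintro ⟨i, rfl⟩
        exact ⟨τ i, rfl⟩
      · rintro ⟨i, rfl⟩
        exact ⟨τ.symm i, by simp⟩
    rw [this]
  have key : ∀ᶠ t : ℝ in atTop, (∀ lam : ℝ, 0 ≤ lam → t = lam ^ (1 / 4 : ℝ) →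
      ((energies (fun _ => 1) (fun k => lam • P k) M).Nonempty ∧
        BddBelow (energies (fun _ => 1) (fun k => lam • P k) M)) ∧
      groundEnergy (fun _ => 1) (fun k => lam • P k) M ≤ -(M / 2) + (W P S + η) / lam) := by
    filter_upwards [eventually_ge_atTop (8 : ℝ),
      small_err (M * 9 + (4 * M ^ 2 + 2 * M * K)) hη] with t ht he lam hlam0 htl
    have htl' : t ^ 4 = lam := by rw [htl]; exact four_pow hlam0
    have ht0 : 0 < t := by linarith
    have hlampos : 0 < lam := by rw [← htl']; positivity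
    have ht3 : t ≤ t ^ 3 := by nlinarith [sq_nonneg t, mul_self_nonneg (t - 1), pow_pos ht0 3]
    have hl8 : 8 ≤ t ^ 3 := le_trans ht ht3
    have h4 : 4 * t ^ 3 ≤ lam := by
      rw [← htl']
      have : 0 < t ^ 3 := by positivity
      nlinarith
    have hκ0 : 0 < 1 / t ^ 3 := by positivity
    have hκ1 : 1 / t ^ 3 ≤ 1 := by
      rw [div_le_one (by positivity)]
      linarith
    have u := upper (lam := lam) (l := t ^ 3) hC hκ0 hκ1 hl8 h4 hP a ha hw
    have n := nonempty (lam := lam) (l := t ^ 3) hκ0 hκ1 hl8 h4 hP a ha hw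
    have hsep : Sep (t ^ 3) (sc lam P) := sc_sep hlampos (by linarith) hP
    refine ⟨⟨n, bdd_all hC hl8 hsep M⟩, ?_⟩
    refine le_trans u ?_
    have hM0 : (0 : ℝ) ≤ M := Nat.cast_nonneg M
    have hK0 : (0 : ℝ) ≤ K := Nat.cast_nonneg K
    -- errors
    have e1 : (1 / t ^ 3) ^ 2 + 8 / (t ^ 3) ^ 2 = 9 / t ^ 2 / lam := by
      rw [← htl']
      field_simp
      ring
    have e2 : (4 * (M : ℝ) ^ 2 + 2 * M * K) * t ^ 3 / lam ^ 2 =
        (4 * (M : ℝ) ^ 2 + 2 * M * K) / t / lam := by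
      rw [← htl']
      field_simp
    have e3 : 9 / t ^ 2 ≤ 9 / t := by
      apply div_le_div_of_nonneg_left (by norm_num) ht0
      nlinarith
    have e4 : (M : ℝ) * (9 / t) + (4 * (M : ℝ) ^ 2 + 2 * M * K) / t ≤ η := by
      refine le_trans (le_of_eq ?_) he
      field_simp
    have e5 : (M : ℝ) * (9 / t ^ 2 / lam) + (4 * (M : ℝ) ^ 2 + 2 * M * K) / t / lam ≤ η / lam := by
      rw [← mul_div_assoc, ← add_div]
      apply div_le_div_of_nonneg_right _ hlampos.le
      refine le_trans ?_ e4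
      gcongr
    calc (M : ℝ) * (-(1 / 2) + (1 / t ^ 3) ^ 2 + 8 / (t ^ 3) ^ 2) + W P S / lam +
          (4 * M ^ 2 + 2 * M * K) * t ^ 3 / lam ^ 2
        = -(M / 2) + W P S / lam + ((M : ℝ) * ((1 / t ^ 3) ^ 2 + 8 / (t ^ 3) ^ 2) +
          (4 * M ^ 2 + 2 * M * K) * t ^ 3 / lam ^ 2) := by ring
      _ ≤ -(M / 2) + W P S / lam + η / lam := by
          rw [e1, e2]
          linarith
      _ = -(M / 2) + (W P S + η) / lam := by ring
  filter_upwards [four_root.eventually key, eventually_ge_atTop (0 : ℝ)] with lam h1 h2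
  exact h1 lam h2 rfl

/-- Lower bound in the dilute limit. -/
lemma lowE (P : Fin K → Space) (hP : ∀ j k, j ≠ k → 1 ≤ ‖P j - P k‖) (hMK : M ≤ K) {w : ℝ}
    (hw : ∀ S : Finset (Fin K), S.card = M → w ≤ W P S) (hw0 : w ≤ 0) {η : ℝ} (hη : 0 < η) :
    ∀ᶠ lam : ℝ in atTop,
      -(M / 2) + (w - η) / lam ≤ groundEnergy (fun _ => 1) (fun k => lam • P k) M := by
  obtain ⟨C, hC0, hC⟩ := exists_bound_deriv
  obtain ⟨S, -, hS⟩ := Finset.exists_subset_card_eq (s := (Finset.univ : Finset (Fin K)))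
    (n := M) (by simpa using hMK)
  have hw' : ∀ a : Fin M → Fin K, Function.Injective a → w ≤ Wc P a := by
    intro a ha
    rw [Wc_eq P a ha]
    apply hw
    rw [Finset.card_image_of_injective _ ha, Finset.card_univ, Fintype.card_fin]
  have key : ∀ᶠ t : ℝ in atTop, (∀ lam : ℝ, 0 ≤ lam → t = lam ^ (1 / 4 : ℝ) →
      (∃ ψ : Wave M, Antisymmetric ψ ∧ normSq ψ = 1) →
      -(M / 2) + (w - η) / lam ≤ groundEnergy (fun _ => 1) (fun k => lam • P k) M) := by
    filter_upwards [eventually_ge_atTop (8 : ℝ), eventually_ge_atTop (4 * (M : ℝ) * K),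
      small_err (M * (64 / 9 * C ^ 2) + 2 * (M ^ 2 + M * K)) hη] with t ht hMt he lam hlam0 htl hψ
    have htl' : t ^ 4 = lam := by rw [htl]; exact four_pow hlam0
    have ht0 : 0 < t := by linarith
    have hlampos : 0 < lam := by rw [← htl']; positivity
    have ht3 : t ≤ t ^ 3 := by nlinarith [sq_nonneg t, mul_self_nonneg (t - 1), pow_pos ht0 3]
    have hl8 : 8 ≤ t ^ 3 := le_trans ht ht3
    have h4 : 4 * t ^ 3 ≤ lam := by
      rw [← htl']
      have : 0 < t ^ 3 := by positivity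
      nlinarith
    have hM0 : (0 : ℝ) ≤ M := Nat.cast_nonneg M
    have hK0 : (0 : ℝ) ≤ K := Nat.cast_nonneg K
    have hMK0 : 0 ≤ (M : ℝ) * K := by positivity
    have h5 : (M : ℝ) * K / t ^ 3 ≤ 1 / 2 := by
      rw [div_le_iff₀ (by positivity)]
      nlinarith
    have h6 : 4 * (M : ℝ) * K * t ^ 3 ≤ lam := by
      rw [← htl']
      have : 0 < t ^ 3 := by positivity
      nlinarith
    have hsep : Sep (t ^ 3) (sc lam P) := sc_sep hlampos (by linarith) hP
    refine groundEnergy_ge (l := t ^ 3) (by positivity) hsep ?_ hψ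
    filter_upwards [ae_distinct M] with x hx
    have th := Theta_main (M := M) (K := K) (lam := lam) (l := t ^ 3) hC (w := w) hl8
      (by linarith) hP hw' hw0 h5 h6 x hx
    refine le_trans ?_ th
    have e1 : (M : ℝ) * cc C (t ^ 3) = (M : ℝ) * (64 / 9 * C ^ 2) / t ^ 2 / lam := by
      unfold cc
      rw [← htl']
      field_simp
    have e2 : 2 * ((M : ℝ) ^ 2 + M * K) * t ^ 3 / lam ^ 2 =
        2 * ((M : ℝ) ^ 2 + M * K) / t / lam := by
      rw [← htl']
      field_simp
    have e3 : (M : ℝ) * (64 / 9 * C ^ 2) / t ^ 2 ≤ (M : ℝ) * (64 / 9 * C ^ 2) / t := by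
      apply div_le_div_of_nonneg_left (by positivity) ht0
      nlinarith
    have e5 : (M : ℝ) * (64 / 9 * C ^ 2) / t ^ 2 / lam + 2 * ((M : ℝ) ^ 2 + M * K) / t / lam ≤
        η / lam := by
      rw [← add_div]
      apply div_le_div_of_nonneg_right _ hlampos.le
      refine le_trans (add_le_add_left e3 _) ?_
      rw [← add_div]
      exact he
    have e6 : (w - η) / lam = w / lam - η / lam := by ring
    rw [e1, e2, e6]
    linarith
  have hne := upE P hP S hS (η := 1) one_pos
  filter_upwards [four_root.eventually key, eventually_ge_atTop (0 : ℝ), hne] with lam h1 h2 h3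
  obtain ⟨e, ψ, g1, g2, _⟩ := h3.1.1
  exact h1 lam h2 rfl ⟨ψ, g1, g2⟩

end

end Pool.Agent.Y14.CV
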