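import Pool.Agent.Y14.CV.An

set_option autoImplicit false
open Pool.Agent.Helper67.Conv

namespace Pool.Agent.Y14.CV

/-- Twice the classical energy with indicators. -/
lemma two_W {ι : Type} [Fintype ι] [DecidableEq ι] (P : ι → Space) (S : Finset ι) :
    2 * W P S = ∑ x, if x ∈ S then ∑ y, (if y ∈ S then 1 else 2) * (-(1 / ‖P x - P y‖)) else 0 := by
  unfold W
  have h1 : ∀ x, ∑ y ∈ S.erase x, 1 / ‖P x - P y‖ = ∑ y ∈ S, 1 / ‖P x - P y‖ := by
    intro x
    apply Finset.sum_erase
    simp
  have h2 : ∀ x, ∑ y ∈ Finset.univ.erase x, 1 / ‖P x - P y‖ = ∑ y, 1 / ‖P x - P y‖ := by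
    intro x
    apply Finset.sum_erase
    simp
  simp_rw [h1, h2]
  rw [mul_sub, mul_div_cancel₀ _ (two_ne_zero), Finset.mul_sum, ← Finset.sum_sub_distrib,
    ← Finset.sum_filter]
  have h3 : Finset.univ.filter (fun x => x ∈ S) = S := by
    ext x
    simp
  rw [h3]
  refine Finset.sum_congr rfl fun x _ => ?_
  have h4 : ∑ y ∈ S, 1 / ‖P x - P y‖ = ∑ y, if y ∈ S then 1 / ‖P x - P y‖ else 0 := by
    rw [← Finset.sum_filter, h3]
  rw [h4, Finset.mul_sum, ← Finset.sum_sub_distrib]
  refine Finset.sum_congr rfl fun y _ => ?_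
  split_ifs <;> ring

lemma W_nonpos {ι : Type} [Fintype ι] [DecidableEq ι] (P : ι → Space) (S : Finset ι) :
    W P S ≤ 0 := by
  have h := two_W P S
  have : (∑ x, if x ∈ S then ∑ y, (if y ∈ S then (1 : ℝ) else 2) * (-(1 / ‖P x - P y‖)) else 0)
      ≤ 0 := by
    refine Finset.sum_nonpos fun x _ => ?_
    split_ifs
    · refine Finset.sum_nonpos fun y _ => ?_
      have h0 : 0 ≤ 1 / ‖P x - P y‖ := by positivity
      split_ifs <;> linarith
    · exact le_rfl
  linarith

/-- Twice the scaled lower bound. -/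
def lowQ (b : Fin 10 → Bool) : ℤ :=
  ∑ i : Fin 10, bif b i then (∑ j : Fin 10, (bif b j then 1 else 2) *
    (bif decide (i = j) then 0 else (-(tab i j) - 1))) else 0

/-- Twice the scaled upper bound. -/
def highQ (b : Fin 10 → Bool) : ℤ :=
  ∑ i : Fin 10, bif b i then (∑ j : Fin 10, (bif b j then 1 else 2) * (-(tab i j))) else 0

/-- Number of elements. -/
def crd (b : Fin 10 → Bool) : ℤ := ∑ i : Fin 10, bif b i then 1 else 0

/-- The pair. -/
def b2 : Fin 10 → Bool := ![false, false, false, false, true, true, false, false, false, false]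

/-- The quadruple. -/
def b4 : Fin 10 → Bool := ![true, true, false, false, false, false, true, true, false, false]

/-- The line, from above. -/
def lineQ (k : ℤ) : ℤ :=
  (if k ≤ 4 then (4 - k) * (-14269201) else (4 - k) * (-14269218)) +
  (if 2 ≤ k then (k - 2) * (-24260786) else (k - 2) * (-24260816))

/-- The check. -/
def okb (b : Fin 10 → Bool) : Bool :=
  (decide (b = b2) || decide (b = b4) || decide (lineQ (crd b) + 20000 ≤ lowQ b))

theorem allok : ∀ b : Fin 10 → Bool, okb b = true := by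
  decide +kernel

lemma b2_check : -28538436 ≤ lowQ b2 ∧ highQ b2 ≤ -28538402 := by decide +kernel

lemma b4_check : -48521632 ≤ lowQ b4 ∧ highQ b4 ≤ -48521572 := by decide +kernel

/-- The set of a boolean vector. -/
def bs (S : Finset (Fin 10)) : Fin 10 → Bool := fun i => decide (i ∈ S)

lemma tab_diag (i : Fin 10) : tab i i = 0 := by
  revert i
  decide +kernel

lemma low_le (S : Finset (Fin 10)) : (lowQ (bs S) : ℝ) / 10 ^ 7 ≤ 2 * W pt S := by
  rw [two_W]
  unfold lowQ bs
  push_cast
  rw [Finset.sum_div]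
  refine Finset.sum_le_sum fun i _ => ?_
  by_cases hi : i ∈ S
  · simp only [hi, decide_true, cond_true, if_true]
    push_cast
    rw [Finset.sum_div]
    refine Finset.sum_le_sum fun j _ => ?_
    by_cases hij : i = j
    · subst hij
      simp
    · have hb := (tab_bounds i j hij).2
      have e : (bif decide (i = j) then (0 : ℤ) else (-(tab i j) - 1)) = -(tab i j) - 1 := by
        simp [hij]
      rw [e]
      by_cases hj : j ∈ S
      · simp only [hj, decide_true, cond_true, if_true]
        push_cast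
        have : -(1 / ‖pt i - pt j‖) ≥ -(((tab i j : ℝ) + 1) / 10 ^ 7) := neg_le_neg hb
        calc (1 * (-(tab i j : ℝ) - 1)) / 10 ^ 7 = -(((tab i j : ℝ) + 1) / 10 ^ 7) := by ring
          _ ≤ 1 * -(1 / ‖pt i - pt j‖) := by rw [one_mul]; exact this
      · simp only [hj, decide_false, cond_false, if_false]
        push_cast
        have : -(1 / ‖pt i - pt j‖) ≥ -(((tab i j : ℝ) + 1) / 10 ^ 7) := neg_le_neg hb
        calc (2 * (-(tab i j : ℝ) - 1)) / 10 ^ 7 = 2 * -(((tab i j : ℝ) + 1) / 10 ^ 7) := by ring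
          _ ≤ 2 * -(1 / ‖pt i - pt j‖) := by linarith
  · simp [hi]

lemma le_high (S : Finset (Fin 10)) : 2 * W pt S ≤ (highQ (bs S) : ℝ) / 10 ^ 7 := by
  rw [two_W]
  unfold highQ bs
  push_cast
  rw [Finset.sum_div]
  refine Finset.sum_le_sum fun i _ => ?_
  by_cases hi : i ∈ S
  · simp only [hi, decide_true, cond_true, if_true]
    push_cast
    rw [Finset.sum_div]
    refine Finset.sum_le_sum fun j _ => ?_
    have hb : (tab i j : ℝ) / 10 ^ 7 ≤ 1 / ‖pt i - pt j‖ := by
      by_cases hij : i = j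
      · subst hij
        simp [tab_diag]
      · exact (tab_bounds i j hij).1
    have : -(1 / ‖pt i - pt j‖) ≤ -((tab i j : ℝ) / 10 ^ 7) := neg_le_neg hb
    by_cases hj : j ∈ S
    · simp only [hj, decide_true, cond_true, if_true]
      push_cast
      calc 1 * -(1 / ‖pt i - pt j‖) ≤ -((tab i j : ℝ) / 10 ^ 7) := by rw [one_mul]; exact this
        _ = (1 * (-(tab i j : ℝ))) / 10 ^ 7 := by ring
    · simp only [hj, decide_false, cond_false, if_false]
      push_cast
      calc 2 * -(1 / ‖pt i - pt j‖) ≤ 2 * -((tab i j : ℝ) / 10 ^ 7) := by linarith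
        _ = (2 * (-(tab i j : ℝ))) / 10 ^ 7 := by ring
  · simp [hi]

lemma crd_eq (S : Finset (Fin 10)) : crd (bs S) = S.card := by
  unfold crd bs
  have : ∀ i : Fin 10, (bif decide (i ∈ S) then (1 : ℤ) else 0) = if i ∈ S then 1 else 0 := by
    intro i
    by_cases h : i ∈ S <;> simp [h]
  simp_rw [this]
  simp

/-- The optimal pair and quadruple. -/
def S2 : Finset (Fin 10) := {4, 5}

/-- The optimal quadruple. -/
def S4 : Finset (Fin 10) := {0, 1, 6, 7}

lemma bs_S2 : bs S2 = b2 := by decide +kernel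

lemma bs_S4 : bs S4 = b4 := by decide +kernel

lemma bs_inj {S T : Finset (Fin 10)} (h : bs S = bs T) : S = T := by
  ext i
  have := congrFun h i
  unfold bs at this
  simpa using this

/-- The energy of the pair. -/
noncomputable def eA : ℝ := W pt S2

/-- The slope. -/
noncomputable def eS : ℝ := (W pt S4 - W pt S2) / 2

lemma eA_bounds : -1.4269218 ≤ eA ∧ eA ≤ -1.4269201 := by
  have h1 := low_le S2
  have h2 := le_high S2
  rw [bs_S2] at h1 h2
  have h3 : (-28538436 : ℝ) ≤ lowQ b2 := by exact_mod_cast b2_check.1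
  have h4 : (highQ b2 : ℝ) ≤ -28538402 := by exact_mod_cast b2_check.2
  unfold eA
  constructor
  · have : (-28538436 : ℝ) / 10 ^ 7 ≤ (lowQ b2 : ℝ) / 10 ^ 7 :=
      div_le_div_of_nonneg_right h3 (by norm_num)
    norm_num at this h1 ⊢
    linarith
  · have : (highQ b2 : ℝ) / 10 ^ 7 ≤ (-28538402 : ℝ) / 10 ^ 7 :=
      div_le_div_of_nonneg_right h4 (by norm_num)
    norm_num at this h2 ⊢
    linarith

lemma eB_bounds : -2.4260816 ≤ W pt S4 ∧ W pt S4 ≤ -2.4260786 := by
  have h1 := low_le S4
  have h2 := le_high S4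
  rw [bs_S4] at h1 h2
  have h3 : (-48521632 : ℝ) ≤ lowQ b4 := by exact_mod_cast b4_check.1
  have h4 : (highQ b4 : ℝ) ≤ -48521572 := by exact_mod_cast b4_check.2
  constructor
  · have : (-48521632 : ℝ) / 10 ^ 7 ≤ (lowQ b4 : ℝ) / 10 ^ 7 :=
      div_le_div_of_nonneg_right h3 (by norm_num)
    norm_num at this h1 ⊢
    linarith
  · have : (highQ b4 : ℝ) / 10 ^ 7 ≤ (-48521572 : ℝ) / 10 ^ 7 :=
      div_le_div_of_nonneg_right h4 (by norm_num)
    norm_num at this h2 ⊢
    linarith

lemma eS_bounds : -0.4997 ≤ eS ∧ eS ≤ -0.4995 := by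
  have h1 := eA_bounds
  have h2 := eB_bounds
  unfold eA at h1
  unfold eS
  constructor <;> linarith [h1.1, h1.2, h2.1, h2.2]

lemma line_le (k : ℤ) : ((4 - k : ℝ) * eA + (k - 2) * W pt S4) ≤ (lineQ k : ℝ) / 10 ^ 7 := by
  have h1 := eA_bounds
  have h2 := eB_bounds
  unfold lineQ
  push_cast
  rw [add_div]
  refine add_le_add ?_ ?_
  · split_ifs with h
    · push_cast
      have : (k : ℝ) ≤ 4 := by exact_mod_cast h
      have h3 : (4 - (k : ℝ)) * eA ≤ (4 - (k : ℝ)) * (-1.4269201) :=
        mul_le_mul_of_nonneg_left h1.2 (by linarith)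
      refine h3.trans (le_of_eq ?_)
      ring
    · push_cast
      have : (4 : ℝ) ≤ k := by
        have h' : (4 : ℤ) ≤ k := by omega
        exact_mod_cast h'
      have h3 : (4 - (k : ℝ)) * eA ≤ (4 - (k : ℝ)) * (-1.4269218) :=
        mul_le_mul_of_nonpos_left h1.1 (by linarith)
      refine h3.trans (le_of_eq ?_)
      ring
  · split_ifs with h
    · push_cast
      have : (2 : ℝ) ≤ k := by exact_mod_cast h
      have h3 : ((k : ℝ) - 2) * W pt S4 ≤ ((k : ℝ) - 2) * (-2.4260786) :=
        mul_le_mul_of_nonneg_left h2.2 (by linarith)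
      refine h3.trans (le_of_eq ?_)
      ring
    · push_cast
      have : (k : ℝ) ≤ 2 := by
        have h' : k ≤ 2 := by omega
        exact_mod_cast h'
      have h3 : ((k : ℝ) - 2) * W pt S4 ≤ ((k : ℝ) - 2) * (-2.4260816) :=
        mul_le_mul_of_nonpos_left h2.1 (by linarith)
      refine h3.trans (le_of_eq ?_)
      ring

/-- The ten protons: all sets of sites. -/
lemma cl_main (S : Finset (Fin 10)) :
    S = S2 ∨ S = S4 ∨ eA + eS * ((S.card : ℝ) - 2) + 0.001 ≤ W pt S := by
  have h := allok (bs S)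
  unfold okb at h
  simp only [Bool.or_eq_true, decide_eq_true_eq] at h
  rcases h with (h | h) | h
  · left
    rw [← bs_S2] at h
    exact bs_inj h
  · right
    left
    rw [← bs_S4] at h
    exact bs_inj h
  · right
    right
    rw [crd_eq] at h
    have h1 := line_le (S.card : ℤ)
    have h2 := low_le S
    have h3 : ((lineQ (S.card : ℤ) : ℝ) + 20000) / 10 ^ 7 ≤ (lowQ (bs S) : ℝ) / 10 ^ 7 := by
      apply div_le_div_of_nonneg_right _ (by norm_num)
      exact_mod_cast h
    have h4 : 2 * (eA + eS * ((S.card : ℝ) - 2)) =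
        (4 - (S.card : ℝ)) * eA + ((S.card : ℝ) - 2) * W pt S4 := by
      unfold eS eA
      ring
    push_cast at h1
    rw [add_div] at h3
    norm_num at h3 h2 h1 ⊢
    linarith

lemma cl_line (S : Finset (Fin 10)) : eA + eS * ((S.card : ℝ) - 2) ≤ W pt S := by
  rcases cl_main S with h | h | h
  · subst h
    have : (S2.card : ℝ) = 2 := by
      have : S2.card = 2 := by decide
      rw [this]
      norm_num
    rw [this]
    unfold eA
    simp
  · subst h
    have : (S4.card : ℝ) = 4 := by
      have : S4.card = 4 := by decide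
      rw [this]
      norm_num
    rw [this]
    unfold eA eS
    linarith
  · linarith

lemma cl_odd (S : Finset (Fin 10)) (hS : Odd S.card) :
    eA + eS * ((S.card : ℝ) - 2) + 0.001 ≤ W pt S := by
  rcases cl_main S with h | h | h
  · subst h
    exact absurd hS (by decide)
  · subst h
    exact absurd hS (by decide)
  · exact h

end Pool.Agent.Y14.CV
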