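import Pool.Agent.Y14.CV.Two

set_option autoImplicit false
open Filter Topology
open Pool.Agent.Helper67.Conv

namespace Pool.Agent.Y14.CV

lemma exists_card {K M : ℕ} (h : M ≤ K) : ∃ S : Finset (Fin K), S.card = M := by
  obtain ⟨S, -, hS⟩ := Finset.exists_subset_card_eq (s := (Finset.univ : Finset (Fin K)))
    (n := M) (by simpa using h)
  exact ⟨S, hS⟩

lemma lowE' {K M : ℕ} (P : Fin K → Space) (hP : ∀ j k, j ≠ k → 1 ≤ ‖P j - P k‖) (hMK : M ≤ K)
    {w : ℝ} (hw : ∀ S : Finset (Fin K), S.card = M → w ≤ W P S) {η : ℝ} (hη : 0 < η) :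
    ∀ᶠ lam : ℝ in atTop,
      -(M / 2) + (w - η) / lam ≤ groundEnergy (fun _ => 1) (fun k => lam • P k) M := by
  obtain ⟨S, hS⟩ := exists_card hMK
  exact lowE P hP hMK hw ((hw S hS).trans (W_nonpos _ _)) hη

/-- First part: the ionization energies oscillate. -/
theorem osc (n r : ℕ) : ∃ P : Fin (10 * n + 2 * r) → Space, Function.Injective P ∧
    ∀ᶠ lam : ℝ in atTop,
      (∀ M ≤ 10 * n + 2 * r, (energies (fun _ => 1) (fun k => lam • P k) M).Nonempty ∧
        BddBelow (energies (fun _ => 1) (fun k => lam • P k) M)) ∧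
      ∀ j < n,
        0 < ionization (fun _ => 1) (fun k => lam • P k) (2 * n + r + 2 * j + 1) ∧
        ionization (fun _ => 1) (fun k => lam • P k) (2 * n + r + 2 * j + 1) <
          ionization (fun _ => 1) (fun k => lam • P k) (2 * n + r + 2 * j) ∧
        ionization (fun _ => 1) (fun k => lam • P k) (2 * n + r + 2 * j + 1) <
          ionization (fun _ => 1) (fun k => lam • P k) (2 * n + r + 2 * j + 2) := by
  obtain ⟨K, hK, P, hP, h1, h2, h3⟩ := good_all n r (ε := 0.0001) (by norm_num)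
  subst hK
  have hη : (0 : ℝ) < 0.0001 := by norm_num
  refine ⟨P, ?_, ?_⟩
  · intro j k hjk
    by_contra hne
    have := hP j k hne
    rw [hjk, sub_self, norm_zero] at this
    norm_num at this
  have q1 : ∀ᶠ lam : ℝ in atTop, ∀ M ∈ Finset.range (10 * n + 2 * r + 1),
      ((energies (fun _ => 1) (fun k => lam • P k) M).Nonempty ∧
        BddBelow (energies (fun _ => 1) (fun k => lam • P k) M)) ∧
      groundEnergy (fun _ => 1) (fun k => lam • P k) M ≤ -(M / 2) + (0 + 0.0001) / lam := by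
    rw [eventually_all_finset]
    intro M hM
    obtain ⟨S, hS⟩ := exists_card (Nat.lt_succ_iff.mp (Finset.mem_range.mp hM))
    filter_upwards [upE P hP S hS hη, eventually_gt_atTop (0 : ℝ)] with lam g hl
    refine ⟨g.1, g.2.trans ?_⟩
    have := W_nonpos P S
    gcongr
  have q2 : ∀ᶠ lam : ℝ in atTop, ∀ M ∈ Finset.range (10 * n + 2 * r + 1),
      -(M / 2) + ((n * eA - r + eS * ((M : ℝ) - 2 * n - r) - 0.0001) - 0.0001) / lam ≤
        groundEnergy (fun _ => 1) (fun k => lam • P k) M := by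
    rw [eventually_all_finset]
    intro M hM
    apply lowE' P hP (Nat.lt_succ_iff.mp (Finset.mem_range.mp hM)) _ hη
    intro S hS
    have := h1 S
    rw [hS] at this
    exact this
  have q3 : ∀ᶠ lam : ℝ in atTop, ∀ M ∈ Finset.range (10 * n + 2 * r + 1), Odd (M + r) →
      -(M / 2) + ((n * eA - r + eS * ((M : ℝ) - 2 * n - r) + 0.001 - 0.0001) - 0.0001) / lam ≤
        groundEnergy (fun _ => 1) (fun k => lam • P k) M := by
    rw [eventually_all_finset]
    intro M hM
    by_cases ho : Odd (M + r)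
    · have := lowE' P hP (M := M) (Nat.lt_succ_iff.mp (Finset.mem_range.mp hM))
        (w := n * eA - r + eS * ((M : ℝ) - 2 * n - r) + 0.001 - 0.0001) (by
          intro S hS
          have := h2 S (by rw [hS]; exact ho)
          rw [hS] at this
          exact this) hη
      filter_upwards [this] with lam g _
      exact g
    · exact Filter.Eventually.of_forall fun lam h => absurd h ho
  have q4 : ∀ᶠ lam : ℝ in atTop, ∀ j ∈ Finset.range (n + 1),
      groundEnergy (fun _ => 1) (fun k => lam • P k) (2 * n + r + 2 * j) ≤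
        -(((2 * n + r + 2 * j : ℕ) : ℝ) / 2) + ((n * eA - r + eS * (2 * j)) + 0.0001) / lam := by
    rw [eventually_all_finset]
    intro j hj
    obtain ⟨S, hS, hSW⟩ := h3 j (Nat.lt_succ_iff.mp (Finset.mem_range.mp hj))
    filter_upwards [upE P hP S hS hη, eventually_gt_atTop (0 : ℝ)] with lam g hl
    refine g.2.trans ?_
    gcongr
  filter_upwards [q1, q2, q3, q4, eventually_gt_atTop (0 : ℝ),
    eventually_gt_atTop (100 * ((n : ℝ) + r + 1))] with lam a1 a2 a3 a4 hl hl'
  have hmem : ∀ {M : ℕ}, M ≤ 10 * n + 2 * r → M ∈ Finset.range (10 * n + 2 * r + 1) := by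
    intro M hM
    exact Finset.mem_range.mpr (Nat.lt_succ_iff.mpr hM)
  refine ⟨fun M hM => (a1 M (hmem hM)).1, ?_⟩
  intro j hj
  have hn : 1 ≤ n := by omega
  have b1 := (a1 (2 * n + r + 2 * j + 1) (hmem (by omega))).2
  have b2 := a2 (2 * n + r + 2 * j) (hmem (by omega))
  have b3 := a3 (2 * n + r + 2 * j + 1) (hmem (by omega)) ⟨n + r + j, by ring⟩
  have b4 := a3 (2 * n + r + 2 * j - 1) (hmem (by omega)) ⟨n + r + j - 1, by omega⟩
  have b5 := a4 j (Finset.mem_range.mpr (by omega))
  have b6 := a4 (j + 1) (Finset.mem_range.mpr (by omega))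
  have ec : ((2 * n + r + 2 * j - 1 : ℕ) : ℝ) = 2 * n + r + 2 * j - 1 := by
    rw [Nat.cast_sub (by omega)]
    push_cast
    ring
  rw [ec] at b4
  push_cast at b1 b2 b3 b5 b6
  have e6 : 2 * n + r + 2 * (j + 1) = 2 * n + r + 2 * j + 2 := by ring
  rw [e6] at b6
  unfold ionization
  have i1 : 2 * n + r + 2 * j + 1 - 1 = 2 * n + r + 2 * j := by omega
  have i2 : 2 * n + r + 2 * j + 2 - 1 = 2 * n + r + 2 * j + 1 := by omega
  rw [i1, i2]
  set E0 := groundEnergy (fun _ => 1) (fun k => lam • P k) (2 * n + r + 2 * j - 1)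
  set E1 := groundEnergy (fun _ => 1) (fun k => lam • P k) (2 * n + r + 2 * j)
  set E2 := groundEnergy (fun _ => 1) (fun k => lam • P k) (2 * n + r + 2 * j + 1)
  set E3 := groundEnergy (fun _ => 1) (fun k => lam • P k) (2 * n + r + 2 * j + 2)
  have hdiv : ∀ a : ℝ, a / lam = a * (1 / lam) := fun a => by ring
  set y : ℝ := 1 / lam with hy
  have hy0 : 0 < y := by positivity
  simp only [hdiv] at b1 b2 b3 b4 b5 b6
  have hjn : (j : ℝ) + 1 ≤ n := by exact_mod_cast hj
  refine ⟨?_, ?_, ?_⟩
  · -- positivity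
    have hs := eS_bounds
    have hA := eA_bounds
    have hyl : (100 * ((n : ℝ) + r + 1)) * y < 1 := by
      rw [hy, mul_one_div, div_lt_one hl]
      exact hl'
    have hn0 : (0 : ℝ) ≤ n := Nat.cast_nonneg n
    have hr0 : (0 : ℝ) ≤ r := Nat.cast_nonneg r
    have hj0 : (0 : ℝ) ≤ j := Nat.cast_nonneg j
    have c1 : -(3 * ((n : ℝ) + r + 1)) ≤
        (n * eA - r + eS * ((2 * n + r + 2 * j) - 2 * n - r) - 0.0001) - 0.0001 := by
      have d1 : (n : ℝ) * (-1.4269218) ≤ n * eA := mul_le_mul_of_nonneg_left hA.1 hn0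
      have d2 : eS * ((2 * (n : ℝ) + r + 2 * j) - 2 * n - r) = eS * (2 * j) := by ring
      have d3 : (-0.4997) * (2 * (j : ℝ)) ≤ eS * (2 * j) :=
        mul_le_mul_of_nonneg_right hs.1 (by linarith)
      rw [d2]
      linarith
    have c2 : -(3 * ((n : ℝ) + r + 1)) * y ≤
        ((n * eA - r + eS * ((2 * n + r + 2 * j) - 2 * n - r) - 0.0001) - 0.0001) * y :=
      mul_le_mul_of_nonneg_right c1 hy0.le
    nlinarith
  · nlinarith
  · nlinarith

/-- Second part: two electrons. -/
theorem two {K : ℕ} (hK : 3 ≤ K) (P : Fin K → Space) (hP : Function.Injective P) :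
    ∀ᶠ lam : ℝ in atTop,
      (∀ M ≤ 3, (energies (fun _ => 1) (fun k => lam • P k) M).Nonempty ∧
        BddBelow (energies (fun _ => 1) (fun k => lam • P k) M)) ∧
      ionization (fun _ => 1) (fun k => lam • P k) 3 <
        ionization (fun _ => 1) (fun k => lam • P k) 2 := by
  -- normalise the minimal distance
  obtain ⟨δ, hδ, hδP⟩ : ∃ δ : ℝ, 0 < δ ∧ ∀ j k, j ≠ k → δ ≤ ‖P j - P k‖ := by
    have hfin : (Set.univ : Set (Fin K × Fin K)).Finite := Set.finite_univ
    by_cases hne : ((Finset.univ : Finset (Fin K × Fin K)).filter fun p => p.1 ≠ p.2).Nonempty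
    · obtain ⟨p, hp, hm⟩ := Finset.exists_min_image _ (fun p : Fin K × Fin K => ‖P p.1 - P p.2‖) hne
      refine ⟨‖P p.1 - P p.2‖, ?_, ?_⟩
      · rw [Finset.mem_filter] at hp
        exact norm_pos_iff.mpr (sub_ne_zero.mpr fun h => hp.2 (hP h))
      · intro j k hjk
        exact hm (j, k) (by simpa using hjk)
    · refine ⟨1, one_pos, fun j k hjk => ?_⟩
      exfalso
      exact hne ⟨(j, k), by simpa using hjk⟩
  set Q : Fin K → Space := fun k => (1 / δ) • P k with hQ
  have hQsep : ∀ j k, j ≠ k → 1 ≤ ‖Q j - Q k‖ := by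
    intro j k hjk
    rw [hQ]
    simp only
    rw [← smul_sub, norm_smul, Real.norm_of_nonneg (by positivity), one_div, inv_mul_eq_div,
      one_le_div hδ]
    exact hδP j k hjk
  have hQinj : Function.Injective Q := by
    intro j k hjk
    by_contra hne
    have := hQsep j k hne
    rw [hjk, sub_self, norm_zero] at this
    norm_num at this
  have key : ∀ᶠ lam : ℝ in atTop,
      (∀ M ≤ 3, (energies (fun _ => 1) (fun k => lam • Q k) M).Nonempty ∧
        BddBelow (energies (fun _ => 1) (fun k => lam • Q k) M)) ∧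
      ionization (fun _ => 1) (fun k => lam • Q k) 3 <
        ionization (fun _ => 1) (fun k => lam • Q k) 2 := by
    obtain ⟨w₁, w₃, g1, -, -, g3, S, hS, hlt⟩ := disc_two Q hQinj hK
    set η : ℝ := (w₁ + w₃ - 2 * W Q S) / 8 with hη
    have hη0 : 0 < η := by
      rw [hη]
      linarith
    have q1 : ∀ᶠ lam : ℝ in atTop, ∀ M ∈ Finset.range 4,
        ((energies (fun _ => 1) (fun k => lam • Q k) M).Nonempty ∧
          BddBelow (energies (fun _ => 1) (fun k => lam • Q k) M)) := by
      rw [eventually_all_finset]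
      intro M hM
      obtain ⟨S', hS'⟩ := exists_card (M := M) (K := K)
        (by have := Finset.mem_range.mp hM; omega)
      filter_upwards [upE Q hQsep S' hS' hη0] with lam g
      exact g.1
    have l1 := lowE' Q hQsep (M := 1) (by omega) g1 hη0
    have l3 := lowE' Q hQsep (M := 3) (by omega) g3 hη0
    have u2 := upE Q hQsep S hS hη0
    filter_upwards [q1, l1, l3, u2, eventually_gt_atTop (0 : ℝ)] with lam a1 a2 a3 a4 hl
    refine ⟨fun M hM => a1 M (Finset.mem_range.mpr (by omega)), ?_⟩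
    have a5 := a4.2
    unfold ionization
    have i1 : 3 - 1 = 2 := rfl
    have i2 : 2 - 1 = 1 := rfl
    rw [i1, i2]
    push_cast at a2 a3 a5
    obtain ⟨y, hy⟩ : ∃ y : ℝ, y = 1 / lam := ⟨_, rfl⟩
    have hy0 : 0 < y := by rw [hy]; positivity
    have hdiv : ∀ a : ℝ, a / lam = a * y := fun a => by rw [hy]; ring
    simp only [hdiv] at a2 a3 a5
    have hpos : 0 < (w₁ - η) * y + (w₃ - η) * y - 2 * ((W Q S + η) * y) := by
      have : (w₁ - η) * y + (w₃ - η) * y - 2 * ((W Q S + η) * y) = (4 * η) * y := by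
        rw [hη]
        ring
      rw [this]
      positivity
    linarith
  have hmul : Tendsto (fun lam : ℝ => lam * δ) atTop atTop :=
    tendsto_id.atTop_mul_const hδ
  filter_upwards [hmul.eventually key] with lam g
  have e : (fun k => (lam * δ) • Q k) = fun k => lam • P k := by
    funext k
    rw [hQ]
    simp only
    rw [smul_smul]
    congr 1
    field_simp
  rw [e] at g
  exact g

end Pool.Agent.Y14.CV
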