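import Pool.Agent.Y14.CV.Cl

set_option autoImplicit false
open Pool.Agent.Helper67.Conv

namespace Pool.Agent.Y14.CV

/-- The trace of a set on the first `K₁` indices. -/
def fstS {K₁ K₂ : ℕ} (S : Finset (Fin (K₁ + K₂))) : Finset (Fin K₁) :=
  Finset.univ.filter fun i => Fin.castAdd K₂ i ∈ S

/-- The trace of a set on the last `K₂` indices. -/
def sndS {K₁ K₂ : ℕ} (S : Finset (Fin (K₁ + K₂))) : Finset (Fin K₂) :=
  Finset.univ.filter fun i => Fin.natAdd K₁ i ∈ S

/-- Union of two sets. -/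
def joinS {K₁ K₂ : ℕ} (S₁ : Finset (Fin K₁)) (S₂ : Finset (Fin K₂)) : Finset (Fin (K₁ + K₂)) :=
  Finset.univ.filter fun i =>
    Fin.addCases (motive := fun _ => Bool) (fun a => decide (a ∈ S₁)) (fun b => decide (b ∈ S₂)) i
      = true

lemma fst_join {K₁ K₂ : ℕ} (S₁ : Finset (Fin K₁)) (S₂ : Finset (Fin K₂)) :
    fstS (joinS S₁ S₂) = S₁ := by
  ext i
  simp [fstS, joinS]

lemma snd_join {K₁ K₂ : ℕ} (S₁ : Finset (Fin K₁)) (S₂ : Finset (Fin K₂)) :
    sndS (joinS S₁ S₂) = S₂ := by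
  ext i
  simp [sndS, joinS]

lemma card_split {K₁ K₂ : ℕ} (S : Finset (Fin (K₁ + K₂))) :
    S.card = (fstS S).card + (sndS S).card := by
  have h : S.card = ∑ i : Fin (K₁ + K₂), if i ∈ S then 1 else 0 := by simp
  rw [h, Fin.sum_univ_add]
  rw [fstS, Finset.card_filter, sndS, Finset.card_filter]

/-- Two systems at a large distance. -/
noncomputable def joinP {K₁ K₂ : ℕ} (P₁ : Fin K₁ → Space) (P₂ : Fin K₂ → Space) (v : Space) :
    Fin (K₁ + K₂) → Space :=
  Fin.addCases P₁ (fun j => P₂ j + v)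

lemma exists_far {K₁ K₂ : ℕ} (P₁ : Fin K₁ → Space) (P₂ : Fin K₂ → Space) (D : ℝ) :
    ∃ v : Space, ∀ i j, D ≤ ‖P₁ i - (P₂ j + v)‖ := by
  refine ⟨EuclideanSpace.single 0 (|D| + ∑ i, ‖P₁ i‖ + ∑ j, ‖P₂ j‖), fun i j => ?_⟩
  set v : Space := EuclideanSpace.single 0 (|D| + ∑ i, ‖P₁ i‖ + ∑ j, ‖P₂ j‖) with hv
  have h1 : ‖v‖ = |D| + ∑ i, ‖P₁ i‖ + ∑ j, ‖P₂ j‖ := by
    rw [hv, PiLp.norm_single, Real.norm_of_nonneg]
    have : 0 ≤ ∑ i, ‖P₁ i‖ := Finset.sum_nonneg fun _ _ => norm_nonneg _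
    have : 0 ≤ ∑ j, ‖P₂ j‖ := Finset.sum_nonneg fun _ _ => norm_nonneg _
    positivity
  have h2 : ‖P₁ i‖ ≤ ∑ i, ‖P₁ i‖ :=
    Finset.single_le_sum (f := fun i => ‖P₁ i‖) (fun _ _ => norm_nonneg _) (Finset.mem_univ i)
  have h3 : ‖P₂ j‖ ≤ ∑ j, ‖P₂ j‖ :=
    Finset.single_le_sum (f := fun i => ‖P₂ i‖) (fun _ _ => norm_nonneg _) (Finset.mem_univ j)
  have h4 : ‖v‖ ≤ ‖P₁ i - (P₂ j + v)‖ + ‖P₁ i‖ + ‖P₂ j‖ := by
    have e : v = -(P₁ i - (P₂ j + v)) + P₁ i - P₂ j := by abel
    calc ‖v‖ = ‖-(P₁ i - (P₂ j + v)) + P₁ i - P₂ j‖ := by rw [← e]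
      _ ≤ ‖-(P₁ i - (P₂ j + v)) + P₁ i‖ + ‖P₂ j‖ := norm_sub_le _ _
      _ ≤ ‖-(P₁ i - (P₂ j + v))‖ + ‖P₁ i‖ + ‖P₂ j‖ := by
          have := norm_add_le (-(P₁ i - (P₂ j + v))) (P₁ i)
          linarith
      _ = _ := by rw [norm_neg]
  have h5 := le_abs_self D
  linarith

/-- The term of the energy. -/
noncomputable def tm {ι : Type} [DecidableEq ι] (P : ι → Space) (S : Finset ι) (x y : ι) : ℝ :=
  if x ∈ S then (if y ∈ S then 1 else 2) * (-(1 / ‖P x - P y‖)) else 0

lemma two_W' {ι : Type} [Fintype ι] [DecidableEq ι] (P : ι → Space) (S : Finset ι) :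
    2 * W P S = ∑ x, ∑ y, tm P S x y := by
  rw [two_W]
  refine Finset.sum_congr rfl fun x _ => ?_
  unfold tm
  split_ifs
  · rfl
  · simp

lemma tm_nonpos {ι : Type} [DecidableEq ι] (P : ι → Space) (S : Finset ι) (x y : ι) :
    tm P S x y ≤ 0 := by
  unfold tm
  have h0 : 0 ≤ 1 / ‖P x - P y‖ := by positivity
  split_ifs <;> linarith

lemma tm_ge {ι : Type} [DecidableEq ι] (P : ι → Space) (S : Finset ι) (x y : ι) {D : ℝ}
    (hD : 0 < D) (h : D ≤ ‖P x - P y‖) : -(2 / D) ≤ tm P S x y := by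
  unfold tm
  have h0 : 0 ≤ 1 / ‖P x - P y‖ := by positivity
  have h1 : 1 / ‖P x - P y‖ ≤ 1 / D := one_div_le_one_div_of_le hD h
  have h2 : 2 / D = 2 * (1 / D) := by ring
  have h3 : 0 < 1 / D := by positivity
  split_ifs <;> linarith

/-- Two systems that are far apart have almost additive energies. -/
lemma join_main {K₁ K₂ : ℕ} (P₁ : Fin K₁ → Space) (P₂ : Fin K₂ → Space)
    (h₁ : ∀ j k, j ≠ k → 1 ≤ ‖P₁ j - P₁ k‖) (h₂ : ∀ j k, j ≠ k → 1 ≤ ‖P₂ j - P₂ k‖)
    {ε : ℝ} (hε : 0 < ε) :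
    ∃ P : Fin (K₁ + K₂) → Space, (∀ j k, j ≠ k → 1 ≤ ‖P j - P k‖) ∧
      ∀ S : Finset (Fin (K₁ + K₂)),
        W P₁ (fstS S) + W P₂ (sndS S) - ε ≤ W P S ∧
        W P S ≤ W P₁ (fstS S) + W P₂ (sndS S) := by
  obtain ⟨v, hv⟩ := exists_far P₁ P₂ (1 + 2 * (K₁ * K₂) / ε)
  have hD0 : 1 ≤ 1 + 2 * ((K₁ : ℝ) * K₂) / ε := by
    have : 0 ≤ 2 * ((K₁ : ℝ) * K₂) / ε := by positivity
    linarith
  set D : ℝ := 1 + 2 * ((K₁ : ℝ) * K₂) / ε with hD
  have hD1 : 0 < D := by linarith
  have hv' : ∀ i j, D ≤ ‖(P₂ j + v) - P₁ i‖ := by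
    intro i j
    rw [norm_sub_rev]
    exact hv i j
  refine ⟨joinP P₁ P₂ v, ?_, ?_⟩
  · intro j k
    refine Fin.addCases (fun a => ?_) (fun a => ?_) j <;>
      refine Fin.addCases (fun b => ?_) (fun b => ?_) k <;> intro hjk <;>
      simp only [joinP, Fin.addCases_left, Fin.addCases_right]
    · apply h₁
      rintro rfl
      exact hjk rfl
    · exact le_trans hD0 (hv a b)
    · exact le_trans hD0 (hv' b a)
    · rw [add_sub_add_right_eq_sub]
      apply h₂
      rintro rfl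
      exact hjk rfl
  · intro S
    have hsum : 2 * W (joinP P₁ P₂ v) S = 2 * W P₁ (fstS S) + 2 * W P₂ (sndS S) +
        ((∑ i : Fin K₁, ∑ j : Fin K₂, tm (joinP P₁ P₂ v) S (Fin.castAdd K₂ i) (Fin.natAdd K₁ j)) +
        ∑ j : Fin K₂, ∑ i : Fin K₁,
          tm (joinP P₁ P₂ v) S (Fin.natAdd K₁ j) (Fin.castAdd K₂ i)) := by
      rw [two_W', two_W', two_W', Fin.sum_univ_add]
      simp_rw [Fin.sum_univ_add]
      rw [Finset.sum_add_distrib, Finset.sum_add_distrib]
      have e1 : ∀ i j : Fin K₁, tm (joinP P₁ P₂ v) S (Fin.castAdd K₂ i) (Fin.castAdd K₂ j) =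
          tm P₁ (fstS S) i j := by
        intro i j
        simp [tm, joinP, fstS]
      have e2 : ∀ i j : Fin K₂, tm (joinP P₁ P₂ v) S (Fin.natAdd K₁ i) (Fin.natAdd K₁ j) =
          tm P₂ (sndS S) i j := by
        intro i j
        simp [tm, joinP, sndS]
      simp_rw [e1, e2]
      ring
    have c1 : ∀ i j, -(2 / D) ≤
        tm (joinP P₁ P₂ v) S (Fin.castAdd K₂ i) (Fin.natAdd K₁ j) := by
      intro i j
      apply tm_ge _ _ _ _ hD1
      simp only [joinP, Fin.addCases_left, Fin.addCases_right]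
      exact hv i j
    have c2 : ∀ i j, -(2 / D) ≤
        tm (joinP P₁ P₂ v) S (Fin.natAdd K₁ j) (Fin.castAdd K₂ i) := by
      intro i j
      apply tm_ge _ _ _ _ hD1
      simp only [joinP, Fin.addCases_left, Fin.addCases_right]
      exact hv' i j
    have d1 : -(K₁ * K₂ * (2 / D)) ≤ ∑ i : Fin K₁, ∑ j : Fin K₂,
        tm (joinP P₁ P₂ v) S (Fin.castAdd K₂ i) (Fin.natAdd K₁ j) := by
      calc -(K₁ * K₂ * (2 / D)) = ∑ i : Fin K₁, ∑ j : Fin K₂, (-(2 / D)) := by
            simp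
            ring
        _ ≤ _ := Finset.sum_le_sum fun i _ => Finset.sum_le_sum fun j _ => c1 i j
    have d2 : -(K₁ * K₂ * (2 / D)) ≤ ∑ j : Fin K₂, ∑ i : Fin K₁,
        tm (joinP P₁ P₂ v) S (Fin.natAdd K₁ j) (Fin.castAdd K₂ i) := by
      calc -(K₁ * K₂ * (2 / D)) = ∑ j : Fin K₂, ∑ i : Fin K₁, (-(2 / D)) := by
            simp
            ring
        _ ≤ _ := Finset.sum_le_sum fun j _ => Finset.sum_le_sum fun i _ => c2 i j
    have d3 : ∑ i : Fin K₁, ∑ j : Fin K₂,
        tm (joinP P₁ P₂ v) S (Fin.castAdd K₂ i) (Fin.natAdd K₁ j) ≤ 0 :=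
      Finset.sum_nonpos fun i _ => Finset.sum_nonpos fun j _ => tm_nonpos _ _ _ _
    have d4 : ∑ j : Fin K₂, ∑ i : Fin K₁,
        tm (joinP P₁ P₂ v) S (Fin.natAdd K₁ j) (Fin.castAdd K₂ i) ≤ 0 :=
      Finset.sum_nonpos fun i _ => Finset.sum_nonpos fun j _ => tm_nonpos _ _ _ _
    have d5 : (K₁ : ℝ) * K₂ * (2 / D) ≤ ε := by
      rw [← mul_div_assoc, div_le_iff₀ hD1, hD]
      have : ε * (1 + 2 * ((K₁ : ℝ) * K₂) / ε) = ε + 2 * ((K₁ : ℝ) * K₂) := by
        field_simp
      rw [this]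
      linarith
    constructor <;> linarith

/-- A dimer. -/
noncomputable def dim : Fin 2 → Space := ![0, EuclideanSpace.single 0 1]

lemma dim_sep (j k : Fin 2) (h : j ≠ k) : 1 ≤ ‖dim j - dim k‖ := by
  fin_cases j <;> fin_cases k <;> simp_all [dim]

lemma fin2_cases : ∀ S : Finset (Fin 2), S = ∅ ∨ S = {0} ∨ S = {1} ∨ S = {0, 1} := by
  decide

lemma dim_W (S : Finset (Fin 2)) : W dim S = if S.card = 0 then 0 else -1 := by
  have h := two_W' dim S
  have hn : ‖(EuclideanSpace.single 0 1 : Space)‖ = 1 := by simp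
  have h01 : ‖dim 0 - dim 1‖ = 1 := by simp [dim]
  have h10 : ‖dim 1 - dim 0‖ = 1 := by simp [dim]
  have h00 : ‖dim 0 - dim 0‖ = 0 := by simp
  have h11 : ‖dim 1 - dim 1‖ = 0 := by simp
  simp only [Fin.sum_univ_two, tm, h01, h10, h00, h11] at h
  rcases fin2_cases S with rfl | rfl | rfl | rfl
  · simp at h ⊢
    linarith
  · simp at h ⊢
    linarith
  · simp at h ⊢
    linarith
  · simp at h ⊢
    linarith

lemma dim_line (S : Finset (Fin 2)) : -1 + eS * ((S.card : ℝ) - 1) ≤ W dim S := by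
  have hs := eS_bounds
  rw [dim_W]
  have hc : S.card ≤ 2 := by
    have := S.card_le_univ
    simpa using this
  obtain h | h | h : S.card = 0 ∨ S.card = 1 ∨ S.card = 2 := by omega
  · rw [h]
    norm_num
    linarith [hs.1, hs.2]
  · rw [h]
    norm_num
  · rw [h]
    norm_num
    linarith [hs.1, hs.2]

lemma dim_even (S : Finset (Fin 2)) (hS : Even S.card) :
    -1 + eS * ((S.card : ℝ) - 1) + 0.001 ≤ W dim S := by
  have hs := eS_bounds
  rw [dim_W]
  have hc : S.card ≤ 2 := by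
    have := S.card_le_univ
    simpa using this
  obtain h | h | h : S.card = 0 ∨ S.card = 1 ∨ S.card = 2 := by omega
  · rw [h]
    norm_num
    linarith [hs.1, hs.2]
  · rw [h] at hS
    exact absurd hS (by decide)
  · rw [h]
    norm_num
    linarith [hs.1, hs.2]

/-- The classical problem for `n` clusters and `r` dimers. -/
def Good (n r : ℕ) (ε : ℝ) : Prop :=
  ∃ K : ℕ, K = 10 * n + 2 * r ∧ ∃ P : Fin K → Space, (∀ j k, j ≠ k → 1 ≤ ‖P j - P k‖) ∧
    (∀ S : Finset (Fin K), n * eA - r + eS * ((S.card : ℝ) - 2 * n - r) - ε ≤ W P S) ∧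
    (∀ S : Finset (Fin K), Odd (S.card + r) →
      n * eA - r + eS * ((S.card : ℝ) - 2 * n - r) + 0.001 - ε ≤ W P S) ∧
    ∀ j ≤ n, ∃ S : Finset (Fin K), S.card = 2 * n + r + 2 * j ∧
      W P S ≤ n * eA - r + eS * (2 * j)

lemma good_zero {ε : ℝ} (hε : 0 < ε) : Good 0 0 ε := by
  refine ⟨0, rfl, Fin.elim0, fun j => j.elim0, ?_, ?_, ?_⟩
  · intro S
    have hS : S = ∅ := Finset.eq_empty_of_isEmpty S
    subst hS
    simp [W]
    exact hε.le
  · intro S hS
    have hS' : S = ∅ := Finset.eq_empty_of_isEmpty S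
    subst hS'
    simp at hS
  · intro j hj
    obtain rfl : j = 0 := by omega
    exact ⟨∅, by simp, by simp [W]⟩

lemma good_cluster {n r : ℕ} {ε ε' : ℝ} (h : Good n r ε) (hε : ε < ε') : Good (n + 1) r ε' := by
  obtain ⟨K, hK, P, hP, h1, h2, h3⟩ := h
  obtain ⟨Q, hQ, hQW⟩ := join_main P pt hP pt_sep (ε := ε' - ε) (by linarith)
  refine ⟨K + 10, by omega, Q, hQ, ?_, ?_, ?_⟩
  · intro S
    have a := (hQW S).1
    have b := h1 (fstS S)
    have c := cl_line (sndS S)
    have d : (S.card : ℝ) = (fstS S).card + (sndS S).card := by exact_mod_cast card_split S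
    rw [d]
    push_cast
    have e : ((n : ℝ) + 1) * eA - r + eS * ((((fstS S).card : ℝ) + (sndS S).card) -
        2 * (n + 1) - r) - ε' = (n * eA - r + eS * (((fstS S).card : ℝ) - 2 * n - r) - ε) +
        (eA + eS * (((sndS S).card : ℝ) - 2)) - (ε' - ε) := by ring
    rw [e]
    linarith
  · intro S hS
    have a := (hQW S).1
    have d : (S.card : ℝ) = (fstS S).card + (sndS S).card := by exact_mod_cast card_split S
    have dn := card_split S
    rw [d]
    push_cast
    have e : ((n : ℝ) + 1) * eA - r + eS * ((((fstS S).card : ℝ) + (sndS S).card) -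
        2 * (n + 1) - r) + 0.001 - ε' =
        (n * eA - r + eS * (((fstS S).card : ℝ) - 2 * n - r) - ε) +
        (eA + eS * (((sndS S).card : ℝ) - 2)) + 0.001 - (ε' - ε) := by ring
    rw [e]
    rcases Nat.even_or_odd (sndS S).card with hev | hod
    · have ho : Odd ((fstS S).card + r) := by
        rw [dn] at hS
        rcases Nat.even_or_odd ((fstS S).card + r) with h' | h'
        · exfalso
          have : Even ((fstS S).card + (sndS S).card + r) := by
            have e' : (fstS S).card + (sndS S).card + r =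
              ((fstS S).card + r) + (sndS S).card := by ring
            rw [e']
            exact h'.add hev
          exact (Nat.not_even_iff_odd.mpr hS) this
        · exact h'
      have b := h2 (fstS S) ho
      have c := cl_line (sndS S)
      linarith
    · have b := h1 (fstS S)
      have c := cl_odd (sndS S) hod
      linarith
  · intro j hj
    by_cases hj0 : j ≤ n
    · obtain ⟨S₁, hS₁, hW₁⟩ := h3 j hj0
      refine ⟨joinS S₁ S2, ?_, ?_⟩
      · rw [card_split, fst_join, snd_join, hS₁]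
        have : S2.card = 2 := by decide
        omega
      · have a := (hQW (joinS S₁ S2)).2
        rw [fst_join, snd_join] at a
        refine a.trans ?_
        have : W pt S2 = eA := rfl
        push_cast
        rw [this]
        linarith
    · obtain rfl : j = n + 1 := by omega
      obtain ⟨S₁, hS₁, hW₁⟩ := h3 n le_rfl
      refine ⟨joinS S₁ S4, ?_, ?_⟩
      · rw [card_split, fst_join, snd_join, hS₁]
        have : S4.card = 4 := by decide
        omega
      · have a := (hQW (joinS S₁ S4)).2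
        rw [fst_join, snd_join] at a
        refine a.trans ?_
        have : W pt S4 = eA + 2 * eS := by
          unfold eA eS
          ring
        push_cast
        rw [this]
        linarith

lemma good_dimer {n r : ℕ} {ε ε' : ℝ} (h : Good n r ε) (hε : ε < ε') : Good n (r + 1) ε' := by
  obtain ⟨K, hK, P, hP, h1, h2, h3⟩ := h
  obtain ⟨Q, hQ, hQW⟩ := join_main P dim hP dim_sep (ε := ε' - ε) (by linarith)
  refine ⟨K + 2, by omega, Q, hQ, ?_, ?_, ?_⟩
  · intro S
    have a := (hQW S).1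
    have b := h1 (fstS S)
    have c := dim_line (sndS S)
    have d : (S.card : ℝ) = (fstS S).card + (sndS S).card := by exact_mod_cast card_split S
    rw [d]
    push_cast
    have e : (n : ℝ) * eA - (r + 1) + eS * ((((fstS S).card : ℝ) + (sndS S).card) -
        2 * n - (r + 1)) - ε' = (n * eA - r + eS * (((fstS S).card : ℝ) - 2 * n - r) - ε) +
        (-1 + eS * (((sndS S).card : ℝ) - 1)) - (ε' - ε) := by ring
    rw [e]
    linarith
  · intro S hS
    have a := (hQW S).1
    have d : (S.card : ℝ) = (fstS S).card + (sndS S).card := by exact_mod_cast card_split S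
    have dn := card_split S
    rw [d]
    push_cast
    have e : (n : ℝ) * eA - (r + 1) + eS * ((((fstS S).card : ℝ) + (sndS S).card) -
        2 * n - (r + 1)) + 0.001 - ε' =
        (n * eA - r + eS * (((fstS S).card : ℝ) - 2 * n - r) - ε) +
        (-1 + eS * (((sndS S).card : ℝ) - 1)) + 0.001 - (ε' - ε) := by ring
    rw [e]
    rcases Nat.even_or_odd (sndS S).card with hev | hod
    · have b := h1 (fstS S)
      have c := dim_even (sndS S) hev
      linarith
    · have ho : Odd ((fstS S).card + r) := by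
        rw [dn] at hS
        rcases Nat.even_or_odd ((fstS S).card + r) with h' | h'
        · exfalso
          have : Even ((fstS S).card + (sndS S).card + (r + 1)) := by
            have e' : (fstS S).card + (sndS S).card + (r + 1) =
              ((fstS S).card + r) + ((sndS S).card + 1) := by ring
            rw [e']
            exact h'.add (by exact hod.add_odd odd_one)
          exact (Nat.not_even_iff_odd.mpr hS) this
        · exact h'
      have b := h2 (fstS S) ho
      have c := dim_line (sndS S)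
      linarith
  · intro j hj
    obtain ⟨S₁, hS₁, hW₁⟩ := h3 j hj
    refine ⟨joinS S₁ {0}, ?_, ?_⟩
    · rw [card_split, fst_join, snd_join, hS₁]
      simp
      omega
    · have a := (hQW (joinS S₁ {0})).2
      rw [fst_join, snd_join] at a
      refine a.trans ?_
      have : W dim {0} = -1 := by
        rw [dim_W]
        simp
      push_cast
      rw [this]
      linarith

lemma good_all (n r : ℕ) {ε : ℝ} (hε : 0 < ε) : Good n r ε := by
  induction n generalizing ε with
  | zero =>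
    induction r generalizing ε with
    | zero => exact good_zero hε
    | succ r ih => exact good_dimer (ih (half_pos hε)) (by linarith)
  | succ n ih => exact good_cluster (ih (half_pos hε)) (by linarith)

end Pool.Agent.Y14.CV
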