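import Pool.Agent.Y14.CV.Join

set_option autoImplicit false
open Pool.Agent.Helper67.Conv

namespace Pool.Agent.Y14.CV

section
variable {K : ℕ} (P : Fin K → Space)

/-- Inverse distance. -/
noncomputable def gg (x y : Fin K) : ℝ := 1 / ‖P x - P y‖

/-- Potential of the other protons. -/
noncomputable def vv (x : Fin K) : ℝ := ∑ y, gg P x y

lemma gg_self (x : Fin K) : gg P x x = 0 := by simp [gg]

lemma gg_comm (x y : Fin K) : gg P x y = gg P y x := by
  unfold gg
  rw [norm_sub_rev]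

lemma W_eq_gv (S : Finset (Fin K)) :
    W P S = (∑ x ∈ S, ∑ y ∈ S, gg P x y) / 2 - ∑ x ∈ S, vv P x := by
  unfold W vv
  have h1 : ∀ x, ∑ y ∈ S.erase x, 1 / ‖P x - P y‖ = ∑ y ∈ S, gg P x y := by
    intro x
    apply Finset.sum_erase
    simp
  have h2 : ∀ x, ∑ y ∈ Finset.univ.erase x, 1 / ‖P x - P y‖ = ∑ y, gg P x y := by
    intro x
    apply Finset.sum_erase
    simp
  simp_rw [h1, h2]

lemma W_one (x : Fin K) : W P {x} = -vv P x := by
  rw [W_eq_gv]
  simp [gg_self]

lemma W_two {x y : Fin K} (h : x ≠ y) : W P {x, y} = gg P x y - vv P x - vv P y := by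
  rw [W_eq_gv]
  have hn : x ∉ ({y} : Finset (Fin K)) := by simpa using h
  simp only [Finset.sum_insert hn, Finset.sum_singleton, gg_self, gg_comm P y x]
  ring

lemma W_three {x y z : Fin K} (h : x ≠ y) (h' : x ≠ z) (h'' : y ≠ z) :
    W P {x, y, z} = gg P x y + gg P x z + gg P y z - vv P x - vv P y - vv P z := by
  rw [W_eq_gv]
  have hn : x ∉ ({y, z} : Finset (Fin K)) := by simp [h, h']
  have hn' : y ∉ ({z} : Finset (Fin K)) := by simpa using h''
  simp only [Finset.sum_insert hn, Finset.sum_insert hn', Finset.sum_singleton, gg_self,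
    gg_comm P y x, gg_comm P z x, gg_comm P z y]
  ring

end

/-- The geometric inequality. -/
lemma geom {E : Type*} [NormedAddCommGroup E] [InnerProductSpace ℝ E] {a b c : E}
    (hab : a ≠ b) (hac : a ≠ c) (hbc : b ≠ c) (hb : ‖b‖ ≤ ‖a‖) (hc : ‖c‖ ≤ ‖a‖) :
    1 / ‖a‖ < 1 / ‖a - b‖ + 1 / ‖a - c‖ := by
  have ha : 0 < ‖a‖ := by
    by_contra h
    have h0 : ‖a‖ = 0 := le_antisymm (not_lt.mp h) (norm_nonneg _)
    have h1 : ‖b‖ = 0 := le_antisymm (by linarith) (norm_nonneg _)
    have h2 : ‖c‖ = 0 := le_antisymm (by linarith) (norm_nonneg _)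
    rw [norm_eq_zero] at h1 h2
    exact hbc (h1.trans h2.symm)
  have key : ∀ d : E, ‖d‖ ≤ ‖a‖ → 2 * ‖a‖ ≤ ‖a - d‖ → d = -a := by
    intro d hd h
    have hp := parallelogram_law_with_norm ℝ a d
    have h0 : ‖a + d‖ * ‖a + d‖ ≤ 0 := by
      nlinarith [norm_nonneg d, norm_nonneg (a - d), norm_nonneg a]
    have h1 : ‖a + d‖ = 0 := by
      have := mul_self_nonneg ‖a + d‖
      have h2 : ‖a + d‖ * ‖a + d‖ = 0 := le_antisymm h0 this
      exact mul_self_eq_zero.mp h2
    rw [norm_eq_zero] at h1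
    exact (neg_eq_of_add_eq_zero_right h1).symm
  have hle : ∀ d : E, ‖d‖ ≤ ‖a‖ → ‖a - d‖ ≤ 2 * ‖a‖ := by
    intro d hd
    have := norm_sub_le a d
    linarith
  have hpos : ∀ d : E, a ≠ d → 0 < ‖a - d‖ := fun d h => norm_pos_iff.mpr (sub_ne_zero.mpr h)
  have hb1 : 1 / (2 * ‖a‖) ≤ 1 / ‖a - b‖ := one_div_le_one_div_of_le (hpos b hab) (hle b hb)
  have hc1 : 1 / (2 * ‖a‖) ≤ 1 / ‖a - c‖ := one_div_le_one_div_of_le (hpos c hac) (hle c hc)
  have e : 1 / ‖a‖ = 1 / (2 * ‖a‖) + 1 / (2 * ‖a‖) := by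
    field_simp
    norm_num
  rw [e]
  rcases lt_or_ge ‖a - b‖ (2 * ‖a‖) with h | h
  · have : 1 / (2 * ‖a‖) < 1 / ‖a - b‖ := one_div_lt_one_div_of_lt (hpos b hab) h
    linarith
  · rcases lt_or_ge ‖a - c‖ (2 * ‖a‖) with h' | h'
    · have : 1 / (2 * ‖a‖) < 1 / ‖a - c‖ := one_div_lt_one_div_of_lt (hpos c hac) h'
      linarith
    · exact absurd ((key b hb h).trans (key c hc h').symm) hbc

section
variable {K : ℕ} (P : Fin K → Space)

lemma case_in (hP : Function.Injective P) {a b c : Fin K} (hab : a ≠ b) (hac : a ≠ c)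
    (hbc : b ≠ c) : ∃ S : Finset (Fin K), S.card = 2 ∧
      2 * W P S < W P {a} + W P {a, b, c} := by
  have h1 := W_two P hab
  have h2 := W_two P hac
  have h3 := W_three P hab hac hbc
  have h4 := W_one P a
  have h5 : 0 < gg P b c := by
    unfold gg
    have : 0 < ‖P b - P c‖ := norm_pos_iff.mpr (sub_ne_zero.mpr fun h => hbc (hP h))
    positivity
  rcases le_total (W P {a, b}) (W P {a, c}) with h | h
  · exact ⟨{a, b}, Finset.card_pair hab, by linarith⟩
  · exact ⟨{a, c}, Finset.card_pair hac, by linarith⟩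

lemma case_out (hP : Function.Injective P) {o a b c : Fin K} (hoa : o ≠ a) (hob : o ≠ b)
    (hoc : o ≠ c) (hab : a ≠ b) (hac : a ≠ c)
    (hbc : b ≠ c) (h₁ : ‖P b - P o‖ ≤ ‖P a - P o‖) (h₂ : ‖P c - P o‖ ≤ ‖P a - P o‖) :
    ∃ S : Finset (Fin K), S.card = 2 ∧ 2 * W P S < W P {o} + W P {a, b, c} := by
  have h3 := W_three P hab hac hbc
  have h4 := W_one P o
  have h5 := W_two P hoa
  have h6 := W_two P hbc
  have h7 : gg P o a < gg P a b + gg P a c := by
    rw [gg_comm P o a]
    unfold gg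
    have hg := geom (a := P a - P o) (b := P b - P o) (c := P c - P o)
      (fun h => hab (hP (sub_left_injective h))) (fun h => hac (hP (sub_left_injective h)))
      (fun h => hbc (hP (sub_left_injective h))) h₁ h₂
    rw [sub_sub_sub_cancel_right, sub_sub_sub_cancel_right] at hg
    exact hg
  rcases le_total (W P {o, a}) (W P {b, c}) with h | h
  · exact ⟨{o, a}, Finset.card_pair hoa, by linarith⟩
  · exact ⟨{b, c}, Finset.card_pair hbc, by linarith⟩

/-- The discrete inequality for two electrons. -/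
lemma disc_two (hP : Function.Injective P) (hK : 3 ≤ K) :
    ∃ w₁ w₃ : ℝ, (∀ S : Finset (Fin K), S.card = 1 → w₁ ≤ W P S) ∧ w₁ ≤ 0 ∧ w₃ ≤ 0 ∧
      (∀ S : Finset (Fin K), S.card = 3 → w₃ ≤ W P S) ∧
      ∃ S : Finset (Fin K), S.card = 2 ∧ 2 * W P S < w₁ + w₃ := by
  obtain ⟨S₁, hS₁, hm₁⟩ := Finset.exists_min_image (Finset.univ.powersetCard 1)
    (fun S : Finset (Fin K) => W P S) (by
      rw [Finset.powersetCard_nonempty]
      simp
      omega)
  obtain ⟨S₃, hS₃, hm₃⟩ := Finset.exists_min_image (Finset.univ.powersetCard 3)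
    (fun S : Finset (Fin K) => W P S) (by
      rw [Finset.powersetCard_nonempty]
      simp
      omega)
  rw [Finset.mem_powersetCard] at hS₁ hS₃
  refine ⟨W P S₁, W P S₃, ?_, W_nonpos _ _, W_nonpos _ _, ?_, ?_⟩
  · intro S hS
    exact hm₁ S (Finset.mem_powersetCard.mpr ⟨Finset.subset_univ _, hS⟩)
  · intro S hS
    exact hm₃ S (Finset.mem_powersetCard.mpr ⟨Finset.subset_univ _, hS⟩)
  · obtain ⟨o, rfl⟩ := Finset.card_eq_one.mp hS₁.2
    obtain ⟨x, y, z, hxy, hxz, hyz, rfl⟩ := Finset.card_eq_three.mp hS₃.2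
    by_cases h1 : o = x
    · subst h1
      exact case_in P hP hxy hxz hyz
    by_cases h2 : o = y
    · subst h2
      have e : ({x, o, z} : Finset (Fin K)) = {o, x, z} := by
        ext t
        simp
        tauto
      rw [e]
      exact case_in P hP hxy.symm hyz hxz
    by_cases h3 : o = z
    · subst h3
      have e : ({x, y, o} : Finset (Fin K)) = {o, x, y} := by
        ext t
        simp
        tauto
      rw [e]
      exact case_in P hP hxz.symm hyz.symm hxy
    rcases le_total ‖P x - P o‖ ‖P y - P o‖ with hA | hA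
    · rcases le_total ‖P y - P o‖ ‖P z - P o‖ with hB | hB
      · have e : ({x, y, z} : Finset (Fin K)) = {z, x, y} := by
          ext t
          simp
          tauto
        rw [e]
        exact case_out P hP h3 h1 h2 hxz.symm hyz.symm hxy (hA.trans hB) hB
      · have e : ({x, y, z} : Finset (Fin K)) = {y, x, z} := by
          ext t
          simp
          tauto
        rw [e]
        exact case_out P hP h2 h1 h3 hxy.symm hyz hxz hA hB
    · rcases le_total ‖P x - P o‖ ‖P z - P o‖ with hB | hB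
      · have e : ({x, y, z} : Finset (Fin K)) = {z, x, y} := by
          ext t
          simp
          tauto
        rw [e]
        exact case_out P hP h3 h1 h2 hxz.symm hyz.symm hxy hB (hA.trans hB)
      · exact case_out P hP h1 h2 h3 hxy hxz hyz hA hB

end

end Pool.Agent.Y14.CV
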